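import Pool.Agent.H487.GA.Stm2

set_option autoImplicit false

/-!
# Project GA (helper487), task OFFA (helper100): the `L¹` norm of the second difference of the Poisson kernel
-/

open MeasureTheory

namespace Pool.Agent.H100.GA.OFFA

theorem poisson (v g : ℝ) (hv : 0 < v) :
    ∫⁻ t : ℝ, ENNReal.ofReal (1 / ((t - g) ^ 2 + v ^ 2)) = ENNReal.ofReal (Real.pi / v) := by
  have h0 : Integrable (fun x : ℝ => (1 + x ^ 2)⁻¹) := integrable_inv_one_add_sq
  have h1 : Integrable (fun x : ℝ => (1 + (x / v) ^ 2)⁻¹) :=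
    (h0.comp_div hv.ne' : Integrable (fun x : ℝ => (1 + (x / v) ^ 2)⁻¹))
  have h2 : Integrable (fun t : ℝ => (1 + ((t - g) / v) ^ 2)⁻¹) := h1.comp_sub_right g
  have h3 : Integrable (fun t : ℝ => (v ^ 2)⁻¹ * (1 + ((t - g) / v) ^ 2)⁻¹) := h2.const_mul _
  have e : (fun t : ℝ => (v ^ 2)⁻¹ * (1 + ((t - g) / v) ^ 2)⁻¹) =
      fun t : ℝ => 1 / ((t - g) ^ 2 + v ^ 2) := by
    funext t
    have hv' : v ≠ 0 := hv.ne'
    have h4 : (t - g) ^ 2 + v ^ 2 ≠ 0 := by positivity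
    have h5 : 1 + ((t - g) / v) ^ 2 ≠ 0 := by positivity
    rw [one_div, ← mul_inv]
    congr 1
    field_simp
    ring
  rw [e] at h3
  rw [← ofReal_integral_eq_lintegral_ofReal h3 (Filter.Eventually.of_forall fun t => by positivity)]
  congr 1
  rw [← e, integral_const_mul]
  have e2 : ∫ t : ℝ, (1 + ((t - g) / v) ^ 2)⁻¹ = ∫ x : ℝ, (1 + (x / v) ^ 2)⁻¹ :=
    integral_sub_right_eq_self (fun x : ℝ => (1 + (x / v) ^ 2)⁻¹) g
  have e3 : ∫ x : ℝ, (1 + (x / v) ^ 2)⁻¹ = |v| • ∫ x : ℝ, (1 + x ^ 2)⁻¹ :=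
    Measure.integral_comp_div (fun x : ℝ => (1 + x ^ 2)⁻¹) v
  rw [e2, e3, integral_univ_inv_one_add_sq, abs_of_pos hv, smul_eq_mul]
  field_simp

theorem term (y v g : ℝ) (hy : 0 < y) :
    ∫⁻ t : ℝ, ENNReal.ofReal |y * (v / ((t - g) ^ 2 + v ^ 2))| ≤ ENNReal.ofReal (Real.pi * y) := by
  by_cases hv : v = 0
  · subst hv
    simp
  have hv' : 0 < |v| := abs_pos.2 hv
  have e : ∀ t : ℝ, |y * (v / ((t - g) ^ 2 + v ^ 2))| =
      (y * |v|) * (1 / ((t - g) ^ 2 + |v| ^ 2)) := by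
    intro t
    have h4 : 0 < (t - g) ^ 2 + v ^ 2 := by positivity
    rw [abs_mul, abs_div, abs_of_pos hy, abs_of_pos h4, sq_abs]
    ring
  have e2 : ∫⁻ t : ℝ, ENNReal.ofReal |y * (v / ((t - g) ^ 2 + v ^ 2))| =
      ENNReal.ofReal (y * |v|) * ∫⁻ t : ℝ, ENNReal.ofReal (1 / ((t - g) ^ 2 + |v| ^ 2)) := by
    rw [← lintegral_const_mul' _ _ ENNReal.ofReal_ne_top]
    refine lintegral_congr fun t => ?_
    rw [e, ENNReal.ofReal_mul (by positivity)]
  rw [e2, poisson |v| g hv', ← ENNReal.ofReal_mul (by positivity)]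
  refine ENNReal.ofReal_le_ofReal (le_of_eq ?_)
  field_simp

theorem main (y b g : ℝ) (hy : 0 < y) :
    ∫⁻ t : ℝ, ENNReal.ofReal |y * ((y - b) / ((t - g) ^ 2 + (y - b) ^ 2)) +
      y * ((y + b) / ((t - g) ^ 2 + (y + b) ^ 2)) - 2 * (y ^ 2 / ((g - t) ^ 2 + y ^ 2))| ≤
    ENNReal.ofReal (48 * Real.pi * b ^ 2 / y) := by
  rcases le_or_gt (y / 2) |b| with hb | hb
  · -- large b
    have hb2 : y ^ 2 ≤ 4 * b ^ 2 := by
      have : (y / 2) ^ 2 ≤ |b| ^ 2 := pow_le_pow_left₀ (by positivity) hb 2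
      rw [sq_abs] at this
      nlinarith
    have m1 : ∀ v : ℝ, Measurable fun t : ℝ =>
        ENNReal.ofReal |y * (v / ((t - g) ^ 2 + v ^ 2))| := fun v => by fun_prop
    calc ∫⁻ t : ℝ, ENNReal.ofReal |y * ((y - b) / ((t - g) ^ 2 + (y - b) ^ 2)) +
          y * ((y + b) / ((t - g) ^ 2 + (y + b) ^ 2)) - 2 * (y ^ 2 / ((g - t) ^ 2 + y ^ 2))|
        ≤ ∫⁻ t : ℝ, (ENNReal.ofReal |y * ((y - b) / ((t - g) ^ 2 + (y - b) ^ 2))| +
          (ENNReal.ofReal |y * ((y + b) / ((t - g) ^ 2 + (y + b) ^ 2))| +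
            (ENNReal.ofReal |y * (y / ((t - g) ^ 2 + y ^ 2))| +
              ENNReal.ofReal |y * (y / ((t - g) ^ 2 + y ^ 2))|))) := by
          refine lintegral_mono fun t => ?_
          rw [← ENNReal.ofReal_add (abs_nonneg _) (abs_nonneg _),
            ← ENNReal.ofReal_add (abs_nonneg _) (by positivity),
            ← ENNReal.ofReal_add (abs_nonneg _) (by positivity)]
          refine ENNReal.ofReal_le_ofReal ?_
          have e : 2 * (y ^ 2 / ((g - t) ^ 2 + y ^ 2)) =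
              y * (y / ((t - g) ^ 2 + y ^ 2)) + y * (y / ((t - g) ^ 2 + y ^ 2)) := by
            rw [show (g - t) ^ 2 = (t - g) ^ 2 by ring]
            ring
          rw [e]
          set A := y * ((y - b) / ((t - g) ^ 2 + (y - b) ^ 2))
          set B := y * ((y + b) / ((t - g) ^ 2 + (y + b) ^ 2))
          set D := y * (y / ((t - g) ^ 2 + y ^ 2))
          have h1 := abs_sub (A + B) (D + D)
          have h2 := abs_add_le A B
          have h3 := abs_add_le D D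
          linarith
      _ = (∫⁻ t : ℝ, ENNReal.ofReal |y * ((y - b) / ((t - g) ^ 2 + (y - b) ^ 2))|) +
          ((∫⁻ t : ℝ, ENNReal.ofReal |y * ((y + b) / ((t - g) ^ 2 + (y + b) ^ 2))|) +
            ((∫⁻ t : ℝ, ENNReal.ofReal |y * (y / ((t - g) ^ 2 + y ^ 2))|) +
              ∫⁻ t : ℝ, ENNReal.ofReal |y * (y / ((t - g) ^ 2 + y ^ 2))|)) := by
          rw [lintegral_add_left (m1 _), lintegral_add_left (m1 _), lintegral_add_left (m1 _)]
      _ ≤ ENNReal.ofReal (Real.pi * y) + (ENNReal.ofReal (Real.pi * y) +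
            (ENNReal.ofReal (Real.pi * y) + ENNReal.ofReal (Real.pi * y))) :=
          add_le_add (term y _ g hy) (add_le_add (term y _ g hy)
            (add_le_add (term y _ g hy) (term y _ g hy)))
      _ = ENNReal.ofReal (4 * Real.pi * y) := by
          have hp : 0 ≤ Real.pi * y := by positivity
          rw [← ENNReal.ofReal_add hp hp, ← ENNReal.ofReal_add hp (by positivity),
            ← ENNReal.ofReal_add hp (by positivity)]
          congr 1
          ring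
      _ ≤ ENNReal.ofReal (48 * Real.pi * b ^ 2 / y) := by
          refine ENNReal.ofReal_le_ofReal ?_
          rw [le_div_iff₀ hy]
          have hp := Real.pi_pos
          nlinarith [mul_nonneg hp.le (sub_nonneg.2 hb2), mul_nonneg hp.le (sq_nonneg b)]
  · -- small b
    obtain ⟨hb1, hb2⟩ := abs_lt.1 hb
    have hy2 : 0 < y / 2 := by positivity
    have key : ∀ t : ℝ, |y * ((y - b) / ((t - g) ^ 2 + (y - b) ^ 2)) +
        y * ((y + b) / ((t - g) ^ 2 + (y + b) ^ 2)) - 2 * (y ^ 2 / ((g - t) ^ 2 + y ^ 2))| ≤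
        (24 * b ^ 2) * (1 / ((t - g) ^ 2 + (y / 2) ^ 2)) := by
      intro t
      rw [show (g - t) ^ 2 = (t - g) ^ 2 by ring]
      set X := (t - g) ^ 2 with hX
      have hX0 : 0 ≤ X := sq_nonneg _
      have hA : (y / 2) ^ 2 ≤ (y - b) ^ 2 := by nlinarith
      have hB : (y / 2) ^ 2 ≤ (y + b) ^ 2 := by nlinarith
      have hq : 0 < (y / 2) ^ 2 := by positivity
      have pA : 0 < X + (y - b) ^ 2 := by linarith
      have pB : 0 < X + (y + b) ^ 2 := by linarith
      have pC : 0 < X + y ^ 2 := by positivity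
      have pD : 0 < X + (y / 2) ^ 2 := by linarith
      have e : y * ((y - b) / (X + (y - b) ^ 2)) + y * ((y + b) / (X + (y + b) ^ 2)) -
          2 * (y ^ 2 / (X + y ^ 2)) =
          2 * y ^ 2 * b ^ 2 * (y ^ 2 - b ^ 2 - 3 * X) /
            ((X + (y - b) ^ 2) * (X + (y + b) ^ 2) * (X + y ^ 2)) := by
        have a1 := pA.ne'
        have a2 := pB.ne'
        have a3 := pC.ne'
        field_simp
        ring
      rw [e, abs_div, abs_of_pos (mul_pos (mul_pos pA pB) pC), abs_mul,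
        abs_of_nonneg (by positivity : 0 ≤ 2 * y ^ 2 * b ^ 2)]
      have h1 : |y ^ 2 - b ^ 2 - 3 * X| ≤ 3 * (X + y ^ 2) := by
        rw [abs_le]
        constructor
        · nlinarith
        · nlinarith [sq_nonneg b, sq_nonneg y]
      rw [mul_one_div, div_le_div_iff₀ (mul_pos (mul_pos pA pB) pC) pD]
      have h2 : (X + (y / 2) ^ 2) * (y / 2) ^ 2 ≤ (X + (y - b) ^ 2) * (X + (y + b) ^ 2) :=
        mul_le_mul (by linarith) (by linarith) hq.le pA.le
      calc 2 * y ^ 2 * b ^ 2 * |y ^ 2 - b ^ 2 - 3 * X| * (X + (y / 2) ^ 2)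
          ≤ 2 * y ^ 2 * b ^ 2 * (3 * (X + y ^ 2)) * (X + (y / 2) ^ 2) := by gcongr
        _ = 24 * b ^ 2 * (((X + (y / 2) ^ 2) * (y / 2) ^ 2) * (X + y ^ 2)) := by ring
        _ ≤ 24 * b ^ 2 * ((X + (y - b) ^ 2) * (X + (y + b) ^ 2) * (X + y ^ 2)) := by gcongr
    calc ∫⁻ t : ℝ, ENNReal.ofReal |y * ((y - b) / ((t - g) ^ 2 + (y - b) ^ 2)) +
          y * ((y + b) / ((t - g) ^ 2 + (y + b) ^ 2)) - 2 * (y ^ 2 / ((g - t) ^ 2 + y ^ 2))|
        ≤ ∫⁻ t : ℝ, ENNReal.ofReal (24 * b ^ 2) *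
            ENNReal.ofReal (1 / ((t - g) ^ 2 + (y / 2) ^ 2)) := by
          refine lintegral_mono fun t => ?_
          rw [← ENNReal.ofReal_mul (by positivity)]
          exact ENNReal.ofReal_le_ofReal (key t)
      _ = ENNReal.ofReal (24 * b ^ 2) * ENNReal.ofReal (Real.pi / (y / 2)) := by
          rw [lintegral_const_mul' _ _ ENNReal.ofReal_ne_top, poisson _ g hy2]
      _ = ENNReal.ofReal (48 * Real.pi * b ^ 2 / y) := by
          rw [← ENNReal.ofReal_mul (by positivity)]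
          congr 1
          field_simp
          ring

theorem offa_proof : Pool.Agent.H487.GA.S_OFFA :=
  ⟨48 * Real.pi, by positivity, fun y b g hy => main y b g hy⟩

end Pool.Agent.H100.GA.OFFA
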