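import Pool.Agent.H121.GA.IfA
import Pool.Agent.H168.Y987.Op
import Pool.Agent.H304.Z987.Green

/-! GA-OP: kernel operators with potentials clipped to `[-b, b]` (port of `H168/Y987/Op`). -/

set_option autoImplicit false

open scoped BigOperators InnerProductSpace Topology
open Filter MeasureTheory

namespace Pool.Agent.H100.GA

open Pool.Agent.Y662.TR
open Pool.Agent.H987.Z (Rs Gr Fr gZ HV)
open Pool.Agent.H987.Y
open Pool.Agent.H168.Y987
open Pool.Agent.H121.GA

section schur

variable {ι : Type} {k : ι → ι → ℝ} {h : ℝ}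

theorem dgb_hs (b : ℝ) (V : ι → ℝ) (x : ι) : HasSum (fun y => |dgb b V x y|) |clp b (V x)| := by
  have h1 := hasSum_single (f := fun y => |dgb b V x y|) x (by
    intro y hy
    unfold dgb
    rw [if_neg (fun e => hy e.symm), abs_zero])
  have h2 : |dgb b V x x| = |clp b (V x)| := by
    unfold dgb
    rw [if_pos rfl]
  rw [h2] at h1
  exact h1

theorem Ker_dgb (hk : Ker h k) {b : ℝ} (hb : 0 ≤ b) (V : ι → ℝ) :
    Ker (h + b) (fun x y => k x y + dgb b V x y) := by
  have hle : ∀ x y, |k x y + dgb b V x y| ≤ |k x y| + |dgb b V x y| := fun x y => abs_add_le _ _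
  have hsm : ∀ x, Summable fun y => |k x y| + |dgb b V x y| :=
    fun x => (hk.sm x).add (dgb_hs b V x).summable
  have hs : ∀ x, Summable fun y => |k x y + dgb b V x y| := fun x =>
    Summable.of_nonneg_of_le (fun y => abs_nonneg _) (hle x) (hsm x)
  refine ⟨by linarith [hk.h0], ?_, hs, ?_⟩
  · intro x y
    rw [hk.sy x y]
    congr 1
    unfold dgb
    by_cases e : x = y
    · subst e; rfl
    · rw [if_neg e, if_neg (fun e' => e e'.symm)]
  · intro x
    calc ∑' y, |k x y + dgb b V x y| ≤ ∑' y, (|k x y| + |dgb b V x y|) :=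
          (hs x).tsum_le_tsum (hle x) (hsm x)
      _ = (∑' y, |k x y|) + |clp b (V x)| := by
          rw [Summable.tsum_add (hk.sm x) (dgb_hs b V x).summable, (dgb_hs b V x).tsum_eq]
      _ ≤ h + b := by
          have := clp_abs b (V x)
          rw [abs_of_nonneg hb] at this
          linarith [hk.le x]

theorem Op_dgb (hk : Ker h k) {b : ℝ} (hb : 0 ≤ b) (V : ι → ℝ) :
    Op (fun x y => k x y + dgb b V x y) = HW (Op k) b V := by
  apply ContinuousLinearMap.ext
  intro u
  apply ll_ext
  intro x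
  rw [Op_apply (Ker_dgb hk hb V)]
  unfold HW
  change _ = Op k u x + Mw b V u x
  rw [Op_apply hk, Mw_apply]
  have h1 : HasSum (fun y => ((dgb b V x y : ℝ) : ℂ) * u y) (((clp b (V x) : ℝ) : ℂ) * u x) := by
    have h1 := hasSum_single (f := fun y => ((dgb b V x y : ℝ) : ℂ) * u y) x (by
      intro y hy
      unfold dgb
      rw [if_neg (fun e => hy e.symm)]
      simp)
    have h2 : ((dgb b V x x : ℝ) : ℂ) * u x = ((clp b (V x) : ℝ) : ℂ) * u x := by
      unfold dgb
      rw [if_pos rfl]
    rw [h2] at h1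
    exact h1
  rw [← h1.tsum_eq, ← Summable.tsum_add (sm0 hk u x) h1.summable]
  apply tsum_congr
  intro y
  push_cast
  ring

theorem HW_rs (T : LL ι →L[ℂ] LL ι) (hT : Rs T) (b : ℝ) (V : ι → ℝ) : Rs (HW T b V) := by
  refine ⟨hT.sa.add (Mw_sa b V), fun u v => ?_⟩
  have h1 : ∀ x, HW T b V u x * v x = T u x * v x + Mw b V u x * v x := by
    intro x
    have : HW T b V u x = T u x + Mw b V u x := rfl
    rw [this]; ring
  have h2 : ∀ x, u x * HW T b V v x = u x * T v x + Mw b V u x * v x := by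
    intro x
    have : HW T b V v x = T v x + Mw b V v x := rfl
    rw [this, Mw_apply, Mw_apply]; ring
  rw [tsum_congr h1, tsum_congr h2,
    Summable.tsum_add (Pool.Agent.H304.Z987.mul_summable' (T u) v)
      (Pool.Agent.H304.Z987.mul_summable' (Mw b V u) v),
    Summable.tsum_add (Pool.Agent.H304.Z987.mul_summable' u (T v))
      (Pool.Agent.H304.Z987.mul_summable' (Mw b V u) v), hT.bil u v]

end schur

theorem opb : S_opb := by
  refine ⟨fun ι k h b hk hb V => ⟨Ker_dgb hk hb V, Op_dgb hk hb V⟩,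
    fun ι T hT b V => HW_rs T hT b V, ?_⟩
  intro d N n t f a b W v v'
  unfold kB kNb dgb
  by_cases h1 : v.1 = v'.1
  · rw [if_pos h1, if_pos h1]
    by_cases h2 : v.2 = v'.2
    · rw [if_pos h2, if_pos (Prod.ext h1 h2)]
      ring
    · rw [if_neg h2, if_neg (fun e => h2 (congrArg Prod.snd e))]
      ring
  · rw [if_neg h1, if_neg h1, if_neg (fun e => h1 (congrArg Prod.fst e))]
    ring

end Pool.Agent.H100.GA
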